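import Mathlib

namespace Pool.Agent.H.MP_18dddc_an

open PowerSeries Finset
open scoped Nat

theorem cone {V : Type} [AddCommGroup V] [Module ℝ V] {L : Submodule ℝ V} (hL : L.FG) {F : Set V}
    (hF : F ⊆ L) (h0 : F.Nonempty) (ha : ∀ x ∈ F, ∀ y ∈ F, x + y ∈ F)
    (hs : ∀ t : ℝ, 0 < t → ∀ x ∈ F, t • x ∈ F)
    (h : ∀ l : V →ₗ[ℝ] ℝ, (∀ x ∈ F, 0 ≤ l x) → ∀ x ∈ L, l x = 0) : ∀ x ∈ L, x ∈ F := by
  have : Module.Finite ℝ L := Module.Finite.iff_fg.2 hL
  set e := (Module.finBasis ℝ L).equivFun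
  obtain ⟨π, hπ⟩ := LinearMap.exists_extend e.toLinearMap
  have h1 : ∀ x : L, π x = e x := fun x => congrArg (· x) hπ
  have hc : Convex ℝ (π '' F) := (convex_iff_forall_pos.2 fun x hx y hy a b h1 h2 _ =>
    ha _ (hs a h1 x hx) _ (hs b h2 y hy)).linear_image π
  have hd : Dense (π '' F) := fun x => by
    by_contra hx
    obtain ⟨f, u, h2, h3⟩ := geometric_hahn_banach_point_closed hc.closure isClosed_closure hx
    have h4 : ∀ y ∈ F, ∀ t : ℝ, 0 < t → u < t * f (π y) := fun y hy t ht => by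
      simpa using h3 _ (subset_closure ⟨_, hs t ht y hy, rfl⟩)
    have h5 : ∀ y ∈ F, 0 ≤ f (π y) := fun y hy => by
      by_contra h5
      have h6 := not_le.1 h5
      have := h4 y hy ((|u| + 1) / -f (π y)) (div_pos (by positivity) (by linarith))
      rw [div_mul_eq_mul_div, div_neg, mul_div_assoc, div_self h6.ne] at this
      linarith [neg_abs_le u]
    have h6 := h (f.toLinearMap ∘ₗ π) h5 (e.symm x) (e.symm x).2
    simp only [LinearMap.comp_apply, h1, LinearEquiv.apply_symm_apply, ContinuousLinearMap.coe_coe]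
      at h6
    obtain ⟨y, hy⟩ := h0
    have h7 := h (f.toLinearMap ∘ₗ π) h5 y (hF hy)
    have := h4 y hy 1 one_pos
    simp only [LinearMap.comp_apply, ContinuousLinearMap.coe_coe] at h7
    rw [h7] at this
    linarith
  obtain ⟨z, hz⟩ := hc.interior_nonempty_iff_affineSpan_eq_top.2 (eq_top_iff.2 fun x _ =>
    closure_minimal (subset_affineSpan ℝ _) (affineSpan ℝ _).closed_of_finiteDimensional (hd x))
  intro x hx
  obtain ⟨c, hc1, hc2⟩ := hd.inter_open_nonempty ((fun w => (2 : ℝ) • π x - w) ⁻¹' interior (π '' F))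
    (isOpen_interior.preimage (by fun_prop)) ⟨(2 : ℝ) • π x - z, by simpa using hz⟩
  obtain ⟨y, hy, h2⟩ := hc (interior_subset hc1) hc2 (a := 1 / 2) (b := 1 / 2) (by norm_num)
    (by norm_num) (by norm_num)
  have h3 : π y = π x := by
    rw [h2]
    module
  have := h1 ⟨y, hF hy⟩
  rw [h3, h1 ⟨x, hx⟩] at this
  have h4 : x = y := congrArg Subtype.val (e.injective this)
  rwa [h4]

variable {B : Type} [Ring B] [Algebra ℂ B]

/-- formal exponential -/
noncomputable def E (z : B) : B⟦X⟧ := PowerSeries.mk fun n => (n ! : ℂ)⁻¹ • z ^ n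

/-- formal derivative -/
noncomputable def dd (g : B⟦X⟧) : B⟦X⟧ := PowerSeries.mk fun n => (n + 1 : ℂ) • coeff (n + 1) g

theorem E0 (z : B) : constantCoeff (E z) = 1 := by simp [E]

theorem E1 (z : B) : coeff 1 (E z) = z := by simp [E]

theorem E_zero : E (0 : B) = 1 := by
  ext n
  cases n <;> simp [E, coeff_one]

theorem E_add {x y : B} (h : Commute x y) : E x * E y = E (x + y) := by
  ext n
  simp only [E, coeff_mul, coeff_mk, h.add_pow', smul_sum]
  refine sum_congr rfl fun p hp => ?_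
  rw [← mem_antidiagonal.1 hp, smul_mul_smul_comm, ← Nat.cast_smul_eq_nsmul ℂ, smul_smul,
    Nat.cast_add_choose]
  congr 1
  have : ((p.1 + p.2)! : ℂ) ≠ 0 := Nat.cast_ne_zero.2 (Nat.factorial_ne_zero _)
  field_simp

theorem E_neg (z : B) : E z * E (-z) = 1 := by
  rw [E_add (Commute.refl z).neg_right, add_neg_cancel, E_zero]

theorem E_neg' (z : B) : E (-z) * E z = 1 := by
  rw [E_add (Commute.refl z).neg_left, neg_add_cancel, E_zero]

theorem dd_mul (f g : B⟦X⟧) : dd (f * g) = dd f * g + f * dd g := by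
  ext n
  have h : ∀ p ∈ antidiagonal (n + 1), (n + 1 : ℂ) • (coeff p.1 f * coeff p.2 g) =
      (p.1 : ℂ) • (coeff p.1 f * coeff p.2 g) + (p.2 : ℂ) • (coeff p.1 f * coeff p.2 g) :=
    fun p hp => by
      rw [← add_smul, ← Nat.cast_add, mem_antidiagonal.1 hp, Nat.cast_succ]
  simp only [dd, coeff_mk, coeff_mul, map_add, smul_sum]
  rw [sum_congr rfl h, sum_add_distrib, Nat.sum_antidiagonal_succ, Nat.sum_antidiagonal_succ']
  simp

theorem dd_E (z : B) : dd (E z) = C z * E z := by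
  ext n
  simp only [dd, E, coeff_mk, coeff_C_mul, smul_smul, mul_smul_comm, pow_succ', Nat.factorial_succ]
  congr 1
  push_cast
  field_simp

theorem dd_E' (z : B) : dd (E z) = E z * C z := by
  ext n
  rw [dd_E]
  simp only [E, coeff_mk, coeff_C_mul, coeff_mul_C, mul_smul_comm, smul_mul_assoc, ← pow_succ,
    ← pow_succ']

/-- rescaling of the formal time -/
noncomputable def R (c : ℂ) : B⟦X⟧ →+* B⟦X⟧ where
  toFun g := PowerSeries.mk fun n => c ^ n • coeff n g
  map_one' := by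
    ext n
    cases n <;> simp [coeff_one]
  map_mul' f g := by
    ext n
    simp only [coeff_mk, coeff_mul, smul_sum]
    exact sum_congr rfl fun p hp => by
      rw [← mem_antidiagonal.1 hp, smul_mul_smul_comm, pow_add]
  map_zero' := by
    ext n
    simp
  map_add' f g := by
    ext n
    simp

theorem coeff_R (c : ℂ) (g : B⟦X⟧) (n : ℕ) : coeff n (R c g) = c ^ n • coeff n g :=
  coeff_mk n fun n => c ^ n • coeff n g

theorem R_E (c : ℂ) (z : B) : R c (E z) = E (c • z) := by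
  ext n
  simp only [coeff_R, E, coeff_mk, smul_pow, smul_comm (c ^ n)]

theorem R_X (c : ℂ) (k : ℕ) (u : B⟦X⟧) : R c (X ^ k * u) = X ^ k * c ^ k • R c u := by
  ext n
  simp only [coeff_R, coeff_X_pow_mul', coeff_smul, smul_smul]
  split_ifs with h
  · rw [← pow_add, Nat.add_sub_cancel' h]
  · simp

theorem map_E {B' : Type} [Ring B'] [Algebra ℂ B'] (ψ : B →ₐ[ℂ] B') (z : B) :
    PowerSeries.map (ψ : B →+* B') (E z) = E (ψ z) := by
  ext n
  simp [E]

omit [Algebra ℂ B] in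
theorem ex_inv {h : B⟦X⟧} (h0 : constantCoeff h = 1) :
    ∃ k : B⟦X⟧, h * k = 1 ∧ k * h = 1 ∧ constantCoeff k = 1 :=
  ⟨_, mul_invOfUnit h 1 h0, invOfUnit_mul h 1 h0, by simp⟩

/-- g agrees with h below degree k, with relative error y in degree k -/
def Ap (k : ℕ) (g h : B⟦X⟧) (y : B) : Prop :=
  ∃ u, constantCoeff u = y ∧ g = h * (1 + X ^ k * u)

omit [Algebra ℂ B] in
theorem Ap.refl (k : ℕ) (g : B⟦X⟧) : Ap k g g 0 := ⟨0, by simp, by simp⟩

omit [Algebra ℂ B] in
theorem mulX (k : ℕ) (u v : B⟦X⟧) :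
    (1 + X ^ k * u) * (1 + X ^ k * v) = 1 + X ^ k * (u + v + X ^ k * (u * v)) := by
  have : X ^ k * u * (X ^ k * v) = X ^ k * (X ^ k * (u * v)) := by
    rw [mul_assoc, ← mul_assoc u, ← X_pow_mul, mul_assoc]
  simp only [add_mul, mul_add, one_mul, mul_one, this]
  abel

omit [Algebra ℂ B] in
theorem conj {h k : B⟦X⟧} (h1 : h * k = 1) (n : ℕ) (u : B⟦X⟧) :
    (1 + X ^ n * u) * h = h * (1 + X ^ n * (k * u * h)) := by
  rw [mul_add, ← mul_assoc, ← X_pow_mul, mul_assoc, ← mul_assoc h, ← mul_assoc h, h1, add_mul,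
    one_mul, one_mul, mul_one, mul_assoc]

omit [Algebra ℂ B] in
theorem Ap.trans {k : ℕ} {g h h' : B⟦X⟧} {y y' : B} (h1 : Ap (k + 1) g h y)
    (h2 : Ap (k + 1) h h' y') : Ap (k + 1) g h' (y' + y) := by
  obtain ⟨u, rfl, rfl⟩ := h1
  obtain ⟨v, rfl, rfl⟩ := h2
  refine ⟨_, ?_, by rw [mul_assoc, mulX]⟩
  simp

omit [Algebra ℂ B] in
theorem Ap.mul {k : ℕ} {g h g' h' : B⟦X⟧} {y y' : B} (h0 : constantCoeff h' = 1)
    (h1 : Ap (k + 1) g h y) (h2 : Ap (k + 1) g' h' y') : Ap (k + 1) (g * g') (h * h') (y + y') := by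
  obtain ⟨u, rfl, rfl⟩ := h1
  obtain ⟨v, rfl, rfl⟩ := h2
  obtain ⟨i, h1, -, h2⟩ := ex_inv h0
  refine ⟨_, ?_, by rw [mul_assoc, ← mul_assoc _ h', conj h1, mul_assoc, mulX, ← mul_assoc]⟩
  simp [h0, h2]

omit [Algebra ℂ B] in
theorem Ap.succ {k : ℕ} {g h : B⟦X⟧} (h1 : Ap k g h 0) : ∃ y, Ap (k + 1) g h y := by
  obtain ⟨u, h0, rfl⟩ := h1
  obtain ⟨v, rfl⟩ := X_dvd_iff.2 h0
  exact ⟨_, v, rfl, by rw [pow_succ, mul_assoc]⟩

theorem Ap.map {k : ℕ} {g h : B⟦X⟧} {y : B} (h1 : Ap k g h y) (ψ : B →ₐ[ℂ] B) :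
    Ap k (PowerSeries.map (ψ : B →+* B) g) (PowerSeries.map (ψ : B →+* B) h) (ψ y) := by
  obtain ⟨u, rfl, rfl⟩ := h1
  exact ⟨PowerSeries.map (ψ : B →+* B) u, rfl, by simp⟩

theorem Ap.resc {k : ℕ} {g h : B⟦X⟧} {y : B} (h1 : Ap k g h y) (c : ℂ) :
    Ap k (R c g) (R c h) (c ^ k • y) := by
  obtain ⟨u, rfl, rfl⟩ := h1
  refine ⟨c ^ k • R c u, ?_, by rw [map_mul, map_add, map_one, R_X]⟩
  rw [constantCoeff_smul, ← coeff_zero_eq_constantCoeff_apply, coeff_R]
  simp

omit [Algebra ℂ B] in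
theorem c1 (f g : B⟦X⟧) :
    coeff 1 (f * g) = constantCoeff f * coeff 1 g + coeff 1 f * constantCoeff g := by
  simp [coeff_mul, Nat.antidiagonal_succ]

theorem Ap.one {g : B⟦X⟧} (h : constantCoeff g = 1) (z : B) : Ap 1 g (E z) (coeff 1 g - z) := by
  obtain ⟨u, hu⟩ := X_dvd_iff.2 (show constantCoeff (E (-z) * g - 1) = 0 by simp [E0, h])
  refine ⟨u, ?_, by rw [pow_one, ← hu, add_sub_cancel, ← mul_assoc, E_neg, one_mul]⟩
  have := congrArg (coeff 1) hu
  rw [coeff_succ_X_mul, map_sub, c1, E0, E1, h] at this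
  simpa [coeff_one, sub_eq_add_neg] using this.symm

theorem Ap.pow {k : ℕ} {g : B⟦X⟧} {y z : B} (h : Ap (k + 1) g (E z) y) (n : ℕ) :
    Ap (k + 1) (g ^ n) (E (n • z)) (n • y) := by
  induction n with
  | zero => simpa [E_zero] using Ap.refl _ _
  | succ n ih =>
    rw [pow_succ, succ_nsmul, succ_nsmul, ← E_add ((Commute.refl z).smul_left n)]
    exact ih.mul (E0 z) h

theorem Ap.comm {p : ℕ} {g g' h h' : B⟦X⟧} {y : B} (h0 : constantCoeff h' = 1)
    (h1 : Ap (p + 1) g h y) (h2 : Ap (p + 1) g' h' (-y)) : ∃ ξ : B, ∀ (c : ℂ) (z : B),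
    Ap (p + 2) (R c g * E z * R c g') (R c h * E z * R c h')
      (c ^ (p + 1) • (y * z - z * y + c • ξ)) := by
  obtain ⟨u, hu, rfl⟩ := h1
  obtain ⟨v, hv, rfl⟩ := h2
  refine ⟨coeff 1 u + coeff 1 v + (y * coeff 1 h' - coeff 1 h' * y) -
    (if p = 0 then y * y else 0), fun c z => ?_⟩
  have e0 : ∀ f : B⟦X⟧, constantCoeff (R c f) = constantCoeff f := fun f => by
    rw [← coeff_zero_eq_constantCoeff_apply, coeff_R]
    simp
  have h3 : constantCoeff (E z * R c h') = 1 := by simp [E0, e0, h0]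
  obtain ⟨i, h4, -, h5⟩ := ex_inv h3
  have h6 : coeff 1 (E z * R c h') = z + c • coeff 1 h' := by
    simp [c1, E0, E1, e0, h0, coeff_R, add_comm]
  have h7 : coeff 1 i = -(z + c • coeff 1 h') := by
    have := congrArg (coeff 1) h4
    rw [c1, h3, h5, h6, one_mul, mul_one, coeff_one, if_neg one_ne_zero] at this
    exact eq_neg_of_add_eq_zero_left this
  set w := i * c ^ (p + 1) • R c u * (E z * R c h') + c ^ (p + 1) • R c v +
    X ^ (p + 1) * (i * c ^ (p + 1) • R c u * (E z * R c h') * c ^ (p + 1) • R c v) with hw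
  obtain ⟨w', hw'⟩ := X_dvd_iff.2 (show constantCoeff w = 0 by
    simp [hw, h3, h5, e0, hu, hv, -map_mul, map_mul constantCoeff i,
      map_mul constantCoeff (i * _), map_mul constantCoeff (X ^ _)])
  refine ⟨w', ?_, ?_⟩
  · rw [← coeff_zero_eq_constantCoeff_apply, ← coeff_succ_X_mul, ← hw', hw, map_add, map_add, c1, c1 i,
      coeff_X_pow_mul', h3, h5, h6, h7]
    simp only [map_mul, coeff_smul, constantCoeff_smul, coeff_R, e0, h5, hu, one_mul, mul_one,
      pow_one]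
    cases p with
    | zero =>
      simp only [zero_add, le_refl, if_true, Nat.sub_self, coeff_zero_eq_constantCoeff, map_mul, h5,
        constantCoeff_smul, e0, E0, hu, hv, h0, one_mul, mul_one, mul_add, add_mul, neg_mul,
        smul_mul_assoc, mul_smul_comm, mul_neg]
      module
    | succ p =>
      rw [if_neg (by omega), if_neg (by omega)]
      simp only [mul_add, add_mul, neg_mul, smul_mul_assoc, mul_smul_comm]
      module
  · rw [pow_succ X (p + 1), mul_assoc (X ^ _) X, ← hw', hw, ← mulX, map_mul, map_mul, map_add, map_add, map_one,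
      R_X, R_X, mul_assoc (R c h) (E z), mul_assoc (R c h) (E z * _), ← mul_assoc (E z * _),
      ← conj h4]
    simp only [mul_assoc]

end Pool.Agent.H.MP_18dddc_an
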