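import Pool.Agent.H.MP_18dddc_an.A

namespace Pool.Agent.H.MP_18dddc_an

open PowerSeries Finset
open scoped Nat

/-- the free algebra on two letters -/
abbrev FA := FreeAlgebra ℂ Bool

/-- the letter for the sum of the two fields -/
noncomputable def Y : FA := FreeAlgebra.ι ℂ true

/-- the letter for the second field -/
noncomputable def D : FA := FreeAlgebra.ι ℂ false

/-- linear combinations of the letters -/
noncomputable def lin (a : ℝ) (b : ℂ) : FA := (a : ℂ) • Y + b • D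

/-- substitution -/
noncomputable def hom {B : Type} [Ring B] [Algebra ℂ B] (y d : B) : FA →ₐ[ℂ] B :=
  FreeAlgebra.lift ℂ fun i => cond i y d

theorem hom_lin {B : Type} [Ring B] [Algebra ℂ B] (y d : B) (a : ℝ) (b : ℂ) :
    hom y d (lin a b) = (a : ℂ) • y + b • d := by
  simp [hom, lin, Y, D, -Complex.coe_smul]

theorem rs {V : Type} [AddCommGroup V] [Module ℂ V] (t : ℝ) (y : V) : t • y = (t : ℂ) • y :=
  (Complex.coe_smul t y).symm

theorem lin_add (a a' : ℝ) (b b' : ℂ) : lin a b + lin a' b' = lin (a + a') (b + b') := by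
  simp only [lin, Complex.ofReal_add]
  module

theorem lin_smul (t a : ℝ) (b : ℂ) : (t : ℂ) • lin a b = lin (t * a) (t * b) := by
  simp only [lin, Complex.ofReal_mul]
  module

theorem E_lin (a a' : ℝ) : E (lin a 0) * E (lin a' 0) = E (lin (a + a') 0) := by
  rw [E_add, lin_add, add_zero]
  simp only [lin, zero_smul, add_zero]
  exact ((Commute.refl Y).smul_left _).smul_right _

/-- the Lie elements of degree one -/
noncomputable def L0 : Submodule ℝ FA := LinearMap.range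
  ({ toFun := fun p => lin p.1 p.2
     map_add' := fun _ _ => (lin_add _ _ _ _).symm
     map_smul' := fun t p => by simp [rs, lin_smul, -Complex.coe_smul] } : ℝ × ℂ →ₗ[ℝ] FA)

theorem lin_mem (a : ℝ) (b : ℂ) : lin a b ∈ L0 := ⟨(a, b), rfl⟩

/-- the Lie elements of degree k+1 -/
noncomputable def L : ℕ → Submodule ℝ FA
  | 0 => L0
  | k + 1 => Submodule.map₂ (LinearMap.mul ℝ FA - (LinearMap.mul ℝ FA).flip) L0 (L k)

theorem L_fg : ∀ k, (L k).FG
  | 0 => Submodule.fg_range _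
  | k + 1 => Submodule.FG.map₂ _ (Submodule.fg_range _) (L_fg k)

theorem nsm (n : ℕ) (x : FA) (p : Submodule ℝ FA) : (n + 1 : ℂ) • x ∈ p ↔ x ∈ p := by
  rw [← p.smul_mem_iff (s := (n + 1 : ℝ)) (x := x) (by positivity), rs]
  simp [-Complex.coe_smul]

theorem ad {z : FA} (hz : z ∈ L0) (n : ℕ) : ∀ (k : ℕ) (m : FA⟦X⟧), (∀ i, coeff i m ∈ L (i + k)) →
    coeff n (E z * m * E (-z)) ∈ L (n + k) := by
  induction n with
  | zero => exact fun k m h => by simpa [E0] using h 0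
  | succ n ih =>
    intro k m h
    have h1 : dd (E z * m * E (-z)) = C z * (E z * m * E (-z)) - E z * m * E (-z) * C z +
        E z * dd m * E (-z) := by
      rw [dd_mul, dd_mul, dd_E z, dd_E' (-z), map_neg]
      noncomm_ring
    have h2 := congrArg (coeff n) h1
    rw [dd, coeff_mk, map_add, map_sub, coeff_C_mul, coeff_mul_C] at h2
    rw [← nsm n, h2, add_right_comm]
    refine add_mem (Submodule.apply_mem_map₂ _ hz (ih k m h)) (ih (k + 1) _ fun i => ?_)
    rw [dd, coeff_mk, nsm, ← add_assoc, add_right_comm]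
    exact h _

/-- the group generated by the exponentials -/
noncomputable def G : Submonoid FA⟦X⟧ := Submonoid.closure (E '' L0)

theorem E_mem (a : ℝ) (b : ℂ) : E (lin a b) ∈ G := Submonoid.subset_closure ⟨_, lin_mem a b, rfl⟩

theorem G0 {g : FA⟦X⟧} (h : g ∈ G) : constantCoeff g = 1 := by
  induction h using Submonoid.closure_induction with
  | mem _ h => obtain ⟨z, -, rfl⟩ := h; exact E0 z
  | one => simp
  | mul _ _ _ _ h1 h2 => simp [h1, h2]

theorem Gd {g : FA⟦X⟧} (h : g ∈ G) : ∃ m, (∀ i, coeff i m ∈ L i) ∧ dd g = m * g := by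
  induction h using Submonoid.closure_induction_left with
  | one => exact ⟨0, by simp, by ext n; simp [dd, coeff_one]⟩
  | mul_left _ h g _ ih =>
    obtain ⟨z, hz, rfl⟩ := h
    obtain ⟨m, h1, h2⟩ := ih
    refine ⟨C z + E z * m * E (-z), fun i => ?_, ?_⟩
    · rw [map_add]
      refine add_mem ?_ (ad hz i 0 m h1)
      cases i with
      | zero => rwa [coeff_zero_C]
      | succ i => rw [coeff_succ_C]; exact zero_mem _
    · rw [dd_mul, dd_E, h2, add_mul, mul_assoc (E z * m), ← mul_assoc (E (-z)), E_neg', one_mul,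
        mul_assoc, mul_assoc]

theorem Ap.mem {p : ℕ} {g : FA⟦X⟧} {c : ℝ} {y : FA} (h : Ap (p + 1) g (E (lin c 0)) y)
    (hg : g ∈ G) : y ∈ L p := by
  obtain ⟨u, rfl, rfl⟩ := h
  obtain ⟨m, h1, h2⟩ := Gd (mul_mem (E_mem (-c) 0) hg)
  rw [← mul_assoc, E_lin, neg_add_cancel, show lin 0 0 = 0 by simp [lin], E_zero, one_mul, mul_add,
    ← mul_assoc, ← X_pow_mul, mul_assoc] at h2
  have h3 := congrArg (coeff p) h2
  rw [dd, coeff_mk, map_add, map_add, coeff_X_pow_mul', coeff_X_pow_mul', if_pos le_rfl,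
    if_neg (by omega), coeff_one, if_neg (by omega), Nat.sub_self, zero_add, mul_one, add_zero] at h3
  rw [← coeff_zero_eq_constantCoeff_apply, ← nsm p, h3]
  exact h1 p

theorem avg0 (y : FA) (h : hom Y 0 y = 0) :
    ∃ (m : ℕ) (ω : ℂ), ‖ω‖ = 1 ∧ ∑ j ∈ range (m + 1), hom Y (ω ^ j • D) y = 0 := by
  set P := hom (Polynomial.C Y) (Polynomial.C D * Polynomial.X) y with hP
  have h1 : ∀ ζ : ℂ, hom Y (ζ • D) y = ∑ i ∈ range (P.natDegree + 1), ζ ^ i • P.coeff i := fun ζ => by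
    have h1 : hom Y (ζ • D) = (Polynomial.eval₂AlgHom (AlgHom.id ℂ FA) (algebraMap ℂ FA ζ)
        fun a => (Algebra.commutes ζ a).symm).comp
          (hom (Polynomial.C Y) (Polynomial.C D * Polynomial.X)) := by
      ext i
      cases i <;> simp [hom, Polynomial.eval₂AlgHom, Algebra.smul_def, Algebra.commutes]
    rw [h1]
    change Polynomial.eval₂ _ _ P = _
    rw [Polynomial.eval₂_eq_sum_range]
    exact sum_congr rfl fun i _ => by
      rw [← map_pow, ← Algebra.commutes, Algebra.smul_def]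
      rfl
  have h2 := h1 0
  rw [zero_smul, h, sum_range_succ'] at h2
  have h3 := Complex.isPrimitiveRoot_exp (P.natDegree + 1) (by omega)
  refine ⟨P.natDegree, _, h3.norm'_eq_one (by omega), ?_⟩
  simp only [h1]
  rw [sum_comm, sum_range_succ', sum_eq_zero fun i hi => ?_]
  · simpa using Or.inr (by simpa using h2.symm)
  · simp only [pow_right_comm _ _ (i + 1), ← sum_smul]
    rw [geom_sum_eq (h3.pow_ne_one_of_pos_of_lt (by omega) (by simpa using hi)), ← pow_mul,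
      mul_comm (i + 1), pow_mul, h3.pow_eq_one]
    simp

/-- products of exponentials close to the drift -/
noncomputable def M (r : ℝ) : Submonoid FA⟦X⟧ :=
  Submonoid.closure {g | ∃ (a : ℝ) (b : ℂ), 0 < a ∧ ‖b‖ < r * a ∧ g = E (lin a b)}

theorem M_le (r : ℝ) : M r ≤ G := Submonoid.closure_le.2 (by
  rintro _ ⟨a, b, -, -, rfl⟩
  exact E_mem a b)

theorem avg (r : ℝ) (k : ℕ) {v : FA⟦X⟧} (hv : v ∈ M r) {c₀ : ℝ} (h0 : 0 < c₀)
    (h : PowerSeries.map (hom Y 0 : FA →+* FA) v = E (lin c₀ 0)) : ∃ u ∈ M r, ∃ c : ℝ, 0 < c ∧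
      PowerSeries.map (hom Y 0 : FA →+* FA) (v * u) = E (lin c 0) ∧
      Ap (k + 1) (v * u) (E (lin c 0)) 0 := by
  have e1 : ∀ (d : FA) (c : ℝ), hom Y d (lin c 0) = lin c 0 := fun d c => by
    rw [hom_lin]
    simp [lin]
  have key : ∀ (k : ℕ) (v : FA⟦X⟧) (c : ℝ) (y : FA), v ∈ M r → 0 < c →
      PowerSeries.map (hom Y 0 : FA →+* FA) v = E (lin c 0) → Ap (k + 1) v (E (lin c 0)) y →
      ∃ u ∈ M r, ∃ c : ℝ, 0 < c ∧ PowerSeries.map (hom Y 0 : FA →+* FA) (v * u) = E (lin c 0) ∧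
      Ap (k + 1) (v * u) (E (lin c 0)) 0 := fun k v c y hv hc h1 h2 => by
    obtain ⟨m, ω, h3, h4⟩ := avg0 y (by
      obtain ⟨w, h3, h4⟩ := h2.map (hom Y 0)
      rw [h1, map_E, e1, mul_add, mul_one, left_eq_add] at h4
      have h5 := congrArg (fun f => coeff (0 + (k + 1)) (E (-lin c 0) * f)) h4
      simp only [← mul_assoc, E_neg', one_mul, coeff_X_pow_mul, mul_zero, map_zero] at h5
      rw [← h3, ← h5, coeff_zero_eq_constantCoeff])
    have h5 : ∀ n : ℕ, ∃ u ∈ M r, ∃ c : ℝ, 0 < c ∧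
        PowerSeries.map (hom Y 0 : FA →+* FA) (v * u) = E (lin c 0) ∧
        Ap (k + 1) (v * u) (E (lin c 0)) (∑ j ∈ range (n + 1), hom Y (ω ^ j • D) y) := fun n => by
      induction n with
      | zero =>
        refine ⟨1, one_mem _, c, hc, by rwa [mul_one], ?_⟩
        have : hom Y D = AlgHom.id ℂ FA := by
          ext i
          cases i <;> simp [hom, Y, D]
        simpa [this] using h2
      | succ n ih =>
        obtain ⟨u, hu, c', hc', h5, h6⟩ := ih
        have h7 := h6.mul (E0 _) ((map_E _ _).trans (congrArg E (e1 _ _)) ▸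
          h2.map (hom Y (ω ^ (n + 1) • D)))
        refine ⟨u * PowerSeries.map (hom Y (ω ^ (n + 1) • D) : FA →+* FA) v, mul_mem hu ?_, c' + c,
          add_pos hc' hc, ?_, by rwa [← mul_assoc, ← E_lin, sum_range_succ]⟩
        · refine (Submonoid.closure_le.2 ?_ : M r ≤ (M r).comap
            (PowerSeries.map (hom Y (ω ^ (n + 1) • D) : FA →+* FA))) hv
          rintro _ ⟨a, b, h8, h9, rfl⟩
          refine Submonoid.subset_closure ⟨a, b * ω ^ (n + 1), h8, by simpa [h3] using h9, ?_⟩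
          rw [map_E, hom_lin, smul_smul, lin]
        · rw [← mul_assoc, map_mul, h5, ← E_lin, ← h1]
          congr 1
          ext i
          have : (hom Y 0).comp (hom Y (ω ^ (n + 1) • D)) = hom Y 0 := by
            ext i
            cases i <;> simp [hom, Y, D]
          exact congrArg (· (coeff i v)) this
    exact h4 ▸ h5 m
  induction k with
  | zero => exact key 0 v c₀ _ hv h0 h (Ap.one (G0 (M_le r hv)) _)
  | succ k ih =>
    obtain ⟨u, hu, c, hc, h1, h2⟩ := ih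
    obtain ⟨y, hy⟩ := h2.succ
    obtain ⟨u', hu', h3⟩ := key _ _ c y (mul_mem hv hu) hc h1 hy
    exact ⟨u * u', mul_mem hu hu', by rwa [← mul_assoc]⟩

/-- a sector around the positive axis -/
def Sec (s : ℝ) (β : ℂ) : Prop := ∃ ρ : ℝ, 0 < ρ ∧ ‖β - ρ‖ < s * ρ

/-- the words of splitting methods -/
noncomputable def S (s : ℝ) : Submonoid FA⟦X⟧ := Submonoid.closure
  {g | ∃ (α : ℝ) (β : ℂ), 0 < α ∧ Sec s β ∧ g = E (lin 0 β) * E (lin α (-α))}

theorem S_le (s : ℝ) : S s ≤ G := Submonoid.closure_le.2 (by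
  rintro _ ⟨a, b, -, -, rfl⟩
  exact mul_mem (E_mem _ _) (E_mem _ _))

theorem S_R {s t : ℝ} (ht : 0 < t) {g : FA⟦X⟧} (h : g ∈ S s) : R (t : ℂ) g ∈ S s := by
  refine (Submonoid.closure_le.2 ?_ : S s ≤ (S s).comap (R (t : ℂ))) h
  rintro _ ⟨α, β, h1, ⟨ρ, h2, h3⟩, rfl⟩
  refine Submonoid.subset_closure ⟨t * α, t * β, mul_pos ht h1, ⟨t * ρ, mul_pos ht h2, ?_⟩, ?_⟩
  · rw [Complex.ofReal_mul, ← mul_sub, norm_mul, Complex.norm_real, Real.norm_of_nonneg ht.le,
      mul_left_comm]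
    gcongr
  · simp [R_E, lin_smul, -Complex.coe_smul]

theorem S_map {s a : ℝ} {b : ℂ} (hs : s ≤ 1) (ha : 0 < a) (hb : ‖b‖ < s / 3 * a) {g : FA⟦X⟧}
    (h : g ∈ S (s / 3)) :
    PowerSeries.map (hom (lin a b) (lin 0 (a + b)) : FA →+* FA) g ∈ S s := by
  refine (Submonoid.closure_le.2 ?_ : S (s / 3) ≤ (S s).comap
    (PowerSeries.map (hom (lin a b) (lin 0 (a + b)) : FA →+* FA))) h
  rintro _ ⟨α, β, h1, ⟨ρ, h2, h3⟩, rfl⟩
  refine Submonoid.subset_closure ⟨α * a, β * (a + b), mul_pos h1 ha,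
    ⟨ρ * a, mul_pos h2 ha, ?_⟩, ?_⟩
  · have h4 : β * (a + b) - (ρ * a : ℝ) = (β - ρ) * a + (β - ρ) * b + ρ * b := by
      push_cast
      ring
    have h5 := norm_add₃_le (a := (β - ρ) * a) (b := (β - ρ) * b) (c := ρ * b)
    simp only [norm_mul, Complex.norm_real, Real.norm_of_nonneg ha.le, Real.norm_of_nonneg h2.le]
      at h5
    have h6 : 0 < s := by
      by_contra h6
      nlinarith [norm_nonneg b]
    have h7 := mul_lt_mul'' h3 hb (norm_nonneg _) (norm_nonneg _)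
    have h8 := mul_lt_mul_of_pos_right h3 ha
    have h9 := mul_lt_mul_of_pos_left hb h2
    have h10 := mul_le_mul_of_nonneg_right hs (mul_pos h6 (mul_pos h2 ha)).le
    rw [h4]
    nlinarith [mul_pos h6 (mul_pos h2 ha)]
  · rw [map_mul, map_E, map_E, hom_lin, hom_lin]
    congr 2 <;> simp only [lin, Complex.ofReal_mul, Complex.ofReal_zero] <;> module

theorem main (p : ℕ) : ∀ s : ℝ, 0 < s → s ≤ 1 → ∀ y ∈ L p,
    ∃ c : ℝ, 0 < c ∧ ∃ g ∈ S s, Ap (p + 1) g (E (lin c 0)) y := by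
  induction p with
  | zero =>
    rintro s hs - _ ⟨⟨a, b⟩, rfl⟩
    have h1 : 0 < ‖b‖ / s + |a| + 1 + a := by linarith [neg_abs_le a, div_nonneg (norm_nonneg b) hs.le]
    have h2 : E (lin 0 ((‖b‖ / s + |a| + 1 + a : ℝ) + b)) * E (lin _ (-(‖b‖ / s + |a| + 1 + a : ℝ))) ∈
        S s := Submonoid.subset_closure ⟨_, _, h1, ⟨_, h1, by
      rw [add_sub_cancel_left, ← div_lt_iff₀' hs]
      linarith [neg_abs_le a]⟩, rfl⟩
    refine ⟨‖b‖ / s + |a| + 1, by positivity, _, h2, ?_⟩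
    convert Ap.one (G0 (S_le s h2)) _
    simp only [c1, E0, E1, lin, LinearMap.coe_mk, AddHom.coe_mk]
    push_cast
    noncomm_ring
    module
  | succ p ih =>
    intro s hs hs1
    refine cone (L_fg (p + 1)) (F := {y | ∃ c : ℝ, 0 < c ∧ ∃ g ∈ S s, Ap (p + 2) g (E (lin c 0)) y})
      (fun y ⟨c, _, g, h1, h2⟩ => h2.mem (S_le s h1)) ?_ ?_ ?_ fun l hl => ?_
    · obtain ⟨c, hc, g, h1, h2⟩ := ih s hs hs1 0 (zero_mem _)
      obtain ⟨y, hy⟩ := h2.succ
      exact ⟨y, c, hc, g, h1, hy⟩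
    · rintro x ⟨c, hc, g, h1, h2⟩ y ⟨c', hc', g', h3, h4⟩
      exact ⟨c + c', add_pos hc hc', _, mul_mem h1 h3, E_lin c c' ▸ h2.mul (E0 _) h4⟩
    · rintro t ht x ⟨c, hc, g, h1, h2⟩
      have h3 := Real.rpow_pos_of_pos ht ((p + 2 : ℕ) : ℝ)⁻¹
      refine ⟨_, mul_pos h3 hc, _, S_R h3 h1, ?_⟩
      have := h2.resc (t ^ ((p + 2 : ℕ) : ℝ)⁻¹ : ℝ)
      rwa [R_E, lin_smul, mul_zero, ← Complex.ofReal_pow, Real.rpow_inv_natCast_pow ht.le (by omega),
        ← rs] at this
    set App : FA⟦X⟧ → Prop := fun h => h ∈ G ∧ ∀ η : ℝ, 0 < η → ∃ g ∈ S s, ∃ e,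
      Ap (p + 2) g h e ∧ l e ≤ η with hA
    have a1 : ∀ g ∈ S s, App g := fun g hg => ⟨S_le s hg, fun η hη =>
      ⟨g, hg, 0, Ap.refl _ _, by simpa using hη.le⟩⟩
    have a2 : ∀ h h', App h → App h' → App (h * h') := fun h h' h1 h2 =>
      ⟨mul_mem h1.1 h2.1, fun η hη => by
        obtain ⟨g, h3, e, h4, h5⟩ := h1.2 _ (half_pos hη)
        obtain ⟨g', h6, e', h7, h8⟩ := h2.2 _ (half_pos hη)
        exact ⟨_, mul_mem h3 h6, _, h4.mul (G0 h2.1) h7, by rw [map_add]; linarith⟩⟩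
    have a3 : ∀ h ∈ M (s / 3), App h := fun h hh => by
      induction hh using Submonoid.closure_induction with
      | one => exact a1 1 (one_mem _)
      | mul _ _ _ _ h1 h2 => exact a2 _ _ h1 h2
      | mem _ hh =>
        obtain ⟨a, b, ha, hb, rfl⟩ := hh
        refine ⟨E_mem a b, fun η hη => ?_⟩
        obtain ⟨c, hc, g, h1, h2⟩ := ih (s / 3) (by positivity) (by linarith) 0 (zero_mem _)
        obtain ⟨y, hy⟩ := h2.succ
        obtain ⟨n, hn⟩ := exists_nat_gt (|l (hom (lin a b) (lin 0 (a + b)) y)| / c ^ (p + 2) / η)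
        have h3 : (0 : ℝ) < ((n + 1 : ℕ) * c)⁻¹ := by positivity
        have h4 := (hy.map (hom (lin a b) (lin 0 (a + b)))).resc (((n + 1 : ℕ) * c)⁻¹ : ℝ)
        rw [map_E, R_E] at h4
        have h5 := h4.pow (n + 1)
        have : (c : ℂ) ≠ 0 := by exact_mod_cast hc.ne'
        rw [hom_lin, zero_smul, add_zero, ← Nat.cast_smul_eq_nsmul ℂ, smul_smul, smul_smul,
          show ((n + 1 : ℕ) : ℂ) * (((n + 1 : ℕ) * c)⁻¹ : ℝ) * (c : ℂ) = 1 by
            push_cast; field_simp, one_smul] at h5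
        refine ⟨_, pow_mem (S_R h3 (S_map hs1 ha hb h1)) (n + 1), _, h5, ?_⟩
        · rw [← Complex.ofReal_pow, ← rs, map_nsmul, map_smul, nsmul_eq_mul, smul_eq_mul]
          rw [div_lt_iff₀ hη, div_lt_iff₀ (by positivity)] at hn
          have h5 : ((n + 1 : ℕ) : ℝ) * ((n + 1 : ℕ) : ℝ) ≤ ((n + 1 : ℕ) : ℝ) ^ (p + 2) := by
            rw [← sq]
            exact pow_le_pow_right₀ (by simp) (by omega)
          rw [inv_pow, ← mul_assoc, ← div_eq_mul_inv, div_mul_eq_mul_div,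
            div_le_iff₀ (by positivity), mul_pow]
          refine (mul_le_mul_of_nonneg_left ((le_abs_self _).trans hn.le) (by positivity)).trans ?_
          refine le_trans ?_ (mul_le_mul_of_nonneg_left
            (mul_le_mul_of_nonneg_right h5 (by positivity)) hη.le)
          push_cast
          nlinarith [mul_pos hη (pow_pos hc (p + 2))]
    have a4 : ∀ (a : ℝ) (b : ℂ), 0 < a → ‖b‖ < s / 3 * a → ∀ y ∈ L p,
        0 ≤ l (y * lin a b - lin a b * y) := fun a b ha hb y hy => by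
      obtain ⟨c, hc, g, h1, h2⟩ := ih s hs hs1 y hy
      obtain ⟨c', hc', g', h3, h4⟩ := ih s hs hs1 _ (neg_mem hy)
      obtain ⟨ξ, hξ⟩ := h2.comm (E0 _) h4
      have h5 : ∀ t : ℝ, 0 < t → 0 ≤ l (y * lin a b - lin a b * y) + t * l ξ := fun t ht => by
        have h5 := hξ t (lin a b)
        rw [R_E, R_E, lin_smul, lin_smul, mul_zero] at h5
        have m1 : ∀ c : ℝ, 0 < c → E (lin c 0) ∈ M (s / 3) := fun c hc =>
          Submonoid.subset_closure ⟨c, 0, hc, by rw [norm_zero]; positivity, rfl⟩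
        have m2 : E (lin a b) ∈ M (s / 3) := Submonoid.subset_closure ⟨a, b, ha, hb, rfl⟩
        obtain ⟨u, hu, c₁, h6, -, h7⟩ := avg (s / 3) (p + 1) (mul_mem (mul_mem (m1 _ (mul_pos ht hc))
          m2) (m1 _ (mul_pos ht hc'))) (c₀ := t * c + a + t * c') (by positivity) (by
            simp only [map_mul, map_E, hom_lin, ← E_lin]
            simp only [lin, smul_zero, zero_smul])
        have h8 := (h5.mul (G0 (M_le _ hu)) (Ap.refl _ u)).trans h7
        have h9 := (a2 _ _ (a2 _ _ (a2 _ _ (a1 _ (S_R ht h1)) (a3 _ m2)) (a1 _ (S_R ht h3)))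
          (a3 _ hu)).2
        refine le_of_mul_le_mul_left (le_of_forall_pos_le_add fun η hη => ?_) (pow_pos ht (p + 1))
        obtain ⟨g, i1, e, i2, i3⟩ := h9 η hη
        have := hl _ ⟨c₁, h6, g, i1, i2.trans h8⟩
        rw [zero_add, add_zero, ← Complex.ofReal_pow, ← rs, ← rs, map_add, map_smul, map_add,
          map_smul, smul_eq_mul, smul_eq_mul] at this
        linarith
      refine le_of_forall_pos_le_add fun η hη => (h5 (η / (|l ξ| + 1)) (by positivity)).trans ?_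
      rw [add_le_add_iff_left, div_mul_eq_mul_div, div_le_iff₀ (by positivity)]
      exact mul_le_mul_of_nonneg_left (by linarith [le_abs_self (l ξ)]) hη.le
    have a5 : ∀ (a : ℝ) (b : ℂ), 0 < a → ‖b‖ < s / 3 * a → ∀ y ∈ L p,
        l (lin a b * y - y * lin a b) = 0 := fun a b ha hb y hy => by
      have h1 := a4 a b ha hb y hy
      have h2 := a4 a b ha hb _ (neg_mem hy)
      simp only [map_sub, neg_mul, mul_neg, map_neg] at h1 h2 ⊢
      linarith
    refine (Submodule.map₂_le.2 ?_ : L (p + 1) ≤ LinearMap.ker l)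
    rintro _ ⟨⟨a, b⟩, rfl⟩ y hy
    have h1 := a5 (‖b‖ / (s / 3) + |a| + 1) 0 (by positivity) (by rw [norm_zero]; positivity) y hy
    have h2 := a5 (‖b‖ / (s / 3) + |a| + 1 + a) (0 + b)
      (by linarith [neg_abs_le a, div_nonneg (norm_nonneg b) (by positivity : 0 ≤ s / 3)])
      (by
        rw [zero_add, ← div_lt_iff₀' (by positivity)]
        linarith [neg_abs_le a]) y hy
    rw [← lin_add, add_mul, mul_add, add_sub_add_comm, map_add, h1, zero_add] at h2
    exact h2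

theorem formal (N : ℕ) : ∃ l : List (ℝ × ℂ), l ≠ [] ∧ (∀ x ∈ l, 0 < x.1 ∧ 0 < x.2.re) ∧
    ∀ n ≤ N, coeff n (l.map fun x => E (lin 0 x.2) * E (lin x.1 (-x.1))).prod =
      coeff n (E (lin 1 0)) := by
  obtain ⟨c, hc, g, h1, h2⟩ := main (N + 1) 1 one_pos le_rfl 0 (zero_mem _)
  obtain ⟨u, -, h3⟩ := h2.resc (c⁻¹ : ℝ)
  rw [R_E, lin_smul, inv_mul_cancel₀ hc.ne', mul_zero, mul_add, mul_one, ← mul_assoc, ← X_pow_mul,
    mul_assoc] at h3
  have h4 := S_R (inv_pos.2 hc) h1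
  have h5 : ∀ n ≤ N + 1, coeff n (R (c⁻¹ : ℝ) g) = coeff n (E (lin 1 0)) := fun n hn => by
    rw [h3, map_add, coeff_X_pow_mul', if_neg (by omega), add_zero]
  have h6 : ∀ g ∈ S 1, ∃ l : List (ℝ × ℂ), (∀ x ∈ l, 0 < x.1 ∧ 0 < x.2.re) ∧
      (l.map fun x => E (lin 0 x.2) * E (lin x.1 (-x.1))).prod = g := fun g hg => by
    induction hg using Submonoid.closure_induction with
    | one => exact ⟨[], by simp, by simp⟩
    | mul _ _ _ _ h1 h2 =>
      obtain ⟨l, h3, rfl⟩ := h1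
      obtain ⟨l', h4, rfl⟩ := h2
      exact ⟨l ++ l', List.forall_mem_append.2 ⟨h3, h4⟩, by simp⟩
    | mem _ h =>
      obtain ⟨α, β, h1, ⟨ρ, h2, h3⟩, rfl⟩ := h
      refine ⟨[(α, β)], List.forall_mem_singleton.2 ⟨h1, ?_⟩, by simp⟩
      have := (abs_lt.1 ((Complex.abs_re_le_norm _).trans_lt h3)).1
      simp only [Complex.sub_re, Complex.ofReal_re] at this
      linarith
  obtain ⟨l, h7, h8⟩ := h6 _ h4
  refine ⟨l, ?_, h7, fun n hn => by rw [h8, h5 n (by omega)]⟩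
  rintro rfl
  have := h5 1 (by omega)
  rw [← h8, E1] at this
  simp [coeff_one, lin, Y, eq_comm, FreeAlgebra.ι_ne_zero] at this

end Pool.Agent.H.MP_18dddc_an
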